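import Pool.Agent.H590.PL.Stm

/-!
IF: integrability for F.
-/

set_option autoImplicit false

noncomputable section

open MeasureTheory Filter Topology Set
open scoped BigOperators ENNReal

namespace Pool.Agent.H276.PLIF

open H590PL

theorem int_abs {c : ℝ} (hc : 0 < c) : Integrable (fun x : ℝ => Real.exp (-(c * |x|))) := by
  rw [← integrableOn_univ, ← Iic_union_Ioi (a := (0 : ℝ)), integrableOn_union]
  constructor
  · refine (integrableOn_exp_mul_Iic hc 0).congr_fun (fun x hx => ?_) measurableSet_Iic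
    show Real.exp (c * x) = Real.exp (-(c * |x|))
    rw [abs_of_nonpos hx]
    congr 1
    ring
  · refine (integrableOn_exp_mul_Ioi (neg_lt_zero.2 hc) 0).congr_fun (fun x hx => ?_)
      measurableSet_Ioi
    show Real.exp (-c * x) = Real.exp (-(c * |x|))
    rw [abs_of_pos hx]
    congr 1
    ring

theorem int_prod {c : ℝ} (hc : 0 < c) :
    Integrable (fun x : P2 => Real.exp (-(c * (|x.1| + |x.2|)))) := by
  have h := (int_abs hc).mul_prod (int_abs hc)
  refine h.congr (Eventually.of_forall fun x => ?_)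
  show Real.exp (-(c * |x.1|)) * Real.exp (-(c * |x.2|)) = _
  rw [← Real.exp_add]
  congr 1
  ring

section

variable {κ : Type} [Fintype κ]

theorem ip_cont (v : P2) : Continuous (ip v) := by
  unfold ip
  fun_prop

theorem tau_cont {p : ℝ} (hp : 0 < p) (v : κ → P2) (k : κ) : Continuous (tau p v k) := by
  unfold tau
  exact ((ip_cont (v k)).abs).rpow_const fun _ => Or.inr hp.le

theorem Ph_cont {p : ℝ} (hp : 0 < p) (v : κ → P2) (b : κ → ℝ) : Continuous (Ph p v b) := by
  unfold Ph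
  exact continuous_finsetSum _ fun k _ => continuous_const.mul
    (((ip_cont (v k)).abs).rpow_const fun _ => Or.inr hp.le)

theorem pow_ge {p s : ℝ} (hp : 1 < p) (hs : 0 ≤ s) : s - 1 ≤ s ^ p := by
  rcases le_total s 1 with h | h
  · have := Real.rpow_nonneg hs p
    linarith
  · have h1 := Real.rpow_le_rpow_of_exponent_le h hp.le
    rw [Real.rpow_one] at h1
    linarith

theorem Ph_ge_one {p : ℝ} (hp : 1 < p) (v : κ → P2) (k : κ) (x : P2) :
    |ip (v k) x| - 1 ≤ Ph p v one x := by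
  have h1 := pow_ge hp (abs_nonneg (ip (v k) x))
  have h2 : |ip (v k) x| ^ p ≤ Ph p v one x := by
    unfold Ph
    have h3 := Finset.single_le_sum (f := fun k => (one k : ℝ) * |ip (v k) x| ^ p)
      (fun j _ => by
        show 0 ≤ (1 : ℝ) * |ip (v j) x| ^ p
        rw [one_mul]
        exact Real.rpow_nonneg (abs_nonneg _) _) (Finset.mem_univ k)
    have h4 : (fun k => (one k : ℝ) * |ip (v k) x| ^ p) k = |ip (v k) x| ^ p := one_mul _
    rw [← h4]
    exact h3
  linarith

theorem cramer (v w x : P2) : |dt v w| * (|x.1| + |x.2|) ≤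
    (|v.1| + |v.2| + |w.1| + |w.2|) * (|ip v x| + |ip w x|) := by
  have h1 : dt v w * x.1 = ip v x * w.2 - ip w x * v.2 := by
    unfold dt ip
    ring
  have h2 : dt v w * x.2 = v.1 * ip w x - w.1 * ip v x := by
    unfold dt ip
    ring
  have h3 : |dt v w| * |x.1| ≤ |ip v x| * |w.2| + |ip w x| * |v.2| := by
    rw [← abs_mul, h1, ← abs_mul, ← abs_mul]
    exact abs_sub _ _
  have h4 : |dt v w| * |x.2| ≤ |v.1| * |ip w x| + |w.1| * |ip v x| := by
    rw [← abs_mul, h2, ← abs_mul, ← abs_mul]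
    exact abs_sub _ _
  have a1 := abs_nonneg v.1
  have a2 := abs_nonneg v.2
  have a3 := abs_nonneg w.1
  have a4 := abs_nonneg w.2
  have b1 := abs_nonneg (ip v x)
  have b2 := abs_nonneg (ip w x)
  nlinarith [mul_nonneg a1 b1, mul_nonneg a2 b1, mul_nonneg a3 b2, mul_nonneg a4 b2]

theorem Ph_ge {p : ℝ} (hp : 1 < p) {v : κ → P2} (hv : Spans v) :
    ∃ c : ℝ, 0 < c ∧ ∀ x : P2, c * (|x.1| + |x.2|) - 1 ≤ Ph p v one x := by
  obtain ⟨i, j, hij⟩ := hv
  set M := |(v i).1| + |(v i).2| + |(v j).1| + |(v j).2| with hM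
  have hM0 : 0 < M := by
    have h : 0 ≤ M := by positivity
    rcases h.eq_or_lt with h | h
    · exfalso
      have h2 := cramer (v i) (v j) (1, 0)
      rw [← hM, ← h] at h2
      simp only [abs_one, abs_zero, add_zero, mul_one, zero_mul] at h2
      exact hij (abs_nonpos_iff.1 h2)
    · exact h
  have hd : 0 < |dt (v i) (v j)| := abs_pos.2 hij
  refine ⟨|dt (v i) (v j)| / (2 * M), by positivity, fun x => ?_⟩
  have h1 := Ph_ge_one hp v i x
  have h2 := Ph_ge_one hp v j x
  have h3 := cramer (v i) (v j) x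
  have h4 : |dt (v i) (v j)| / (2 * M) * (|x.1| + |x.2|) ≤
      (|ip (v i) x| + |ip (v j) x|) / 2 := by
    rw [div_mul_eq_mul_div, div_le_div_iff₀ (by positivity) (by norm_num)]
    rw [← hM] at h3
    nlinarith
  linarith

theorem poly_exp {c : ℝ} (hc : 0 < c) : ∃ K : ℝ, 0 < K ∧ ∀ r : ℝ, 0 ≤ r →
    (1 + r) ^ 4 ≤ K * Real.exp (c / 2 * r) := by
  set δ := min (c / 8) 1 with hδ
  have hδ0 : 0 < δ := lt_min (by positivity) one_pos
  have hδ1 : δ ≤ 1 := min_le_right _ _
  have hδc : δ ≤ c / 8 := min_le_left _ _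
  refine ⟨(1 / δ) ^ 4, by positivity, fun r hr => ?_⟩
  have h1 : 1 + r ≤ 1 / δ * Real.exp (δ * r) := by
    have h2 := Real.add_one_le_exp (δ * r)
    rw [div_mul_eq_mul_div, one_mul, le_div_iff₀ hδ0]
    nlinarith
  have h3 : (1 + r) ^ 4 ≤ (1 / δ * Real.exp (δ * r)) ^ 4 := pow_le_pow_left₀ (by positivity) h1 4
  refine h3.trans ?_
  rw [mul_pow, ← Real.exp_nat_mul]
  refine mul_le_mul_of_nonneg_left ?_ (by positivity)
  refine Real.exp_le_exp.2 ?_
  push_cast
  nlinarith

/-- the domination -/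
theorem dom {p : ℝ} (hp : 1 < p) {v : κ → P2} (hv : Spans v) {f : P2 → ℝ} (hf : Measurable f)
    {C : ℝ} (hC : ∀ x, |f x| ≤ C * (1 + (|x.1| + |x.2|)) ^ 4) :
    Integrable (fun x => Real.exp (-(Ph p v one x)) * f x) := by
  obtain ⟨c, hc, hPh⟩ := Ph_ge hp hv
  obtain ⟨K, hK, hpoly⟩ := poly_exp hc
  have hC0 : 0 ≤ C := by
    have h := (abs_nonneg _).trans (hC 0)
    simpa using h
  have hint := (int_prod (half_pos hc)).const_mul (Real.exp 1 * (C * K))
  refine hint.mono' ?_ (Eventually.of_forall fun x => ?_)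
  · refine Measurable.aestronglyMeasurable ?_
    exact ((Ph_cont (by linarith) v one).measurable.neg.exp).mul hf
  · rw [Real.norm_eq_abs, abs_mul, abs_of_pos (Real.exp_pos _)]
    set r := |x.1| + |x.2| with hr
    have hr0 : 0 ≤ r := by positivity
    have h1 : Real.exp (-(Ph p v one x)) ≤ Real.exp 1 * Real.exp (-(c * r)) := by
      rw [← Real.exp_add]
      exact Real.exp_le_exp.2 (by linarith [hPh x])
    have h2 : |f x| ≤ C * (K * Real.exp (c / 2 * r)) :=
      (hC x).trans (mul_le_mul_of_nonneg_left (hpoly r hr0) hC0)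
    calc Real.exp (-(Ph p v one x)) * |f x|
        ≤ (Real.exp 1 * Real.exp (-(c * r))) * (C * (K * Real.exp (c / 2 * r))) :=
          mul_le_mul h1 h2 (abs_nonneg _) (by positivity)
      _ = Real.exp 1 * (C * K) * (Real.exp (-(c * r)) * Real.exp (c / 2 * r)) := by ring
      _ = Real.exp 1 * (C * K) * Real.exp (-(c / 2 * r)) := by
          rw [← Real.exp_add]
          congr 2
          ring

theorem tlog {t : ℝ} (ht : 0 ≤ t) : |t * Real.log t| ≤ 1 + t ^ 2 := by
  rcases ht.eq_or_lt with h | h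
  · rw [← h]
    norm_num
  · have h1 := Real.log_le_sub_one_of_pos h
    have h2 := Real.log_le_sub_one_of_pos (inv_pos.2 h)
    rw [Real.log_inv] at h2
    have h3 : t * (t⁻¹ - 1) = 1 - t := by
      field_simp
    have h4 : t * -Real.log t ≤ 1 - t := by
      rw [← h3]
      exact mul_le_mul_of_nonneg_left h2 h.le
    have h5 : t * Real.log t ≤ t * (t - 1) := mul_le_mul_of_nonneg_left h1 h.le
    rw [abs_le]
    constructor <;> nlinarith

theorem tau_bd {p : ℝ} (hp : 1 < p) (hp2 : p ≤ 2) (v : κ → P2) (k : κ) :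
    ∃ B : ℝ, 0 ≤ B ∧ ∀ x, 0 ≤ tau p v k x ∧ tau p v k x ≤ B * (1 + (|x.1| + |x.2|)) ^ 2 := by
  set b := 1 + |(v k).1| + |(v k).2| with hb
  have hb1 : 1 ≤ b := by
    have := abs_nonneg (v k).1
    have := abs_nonneg (v k).2
    linarith
  refine ⟨b ^ 2, by positivity, fun x => ⟨Real.rpow_nonneg (abs_nonneg _) _, ?_⟩⟩
  set r := |x.1| + |x.2| with hr
  have hr0 : 0 ≤ r := by positivity
  have h1 : |ip (v k) x| ≤ b * (1 + r) := by
    unfold ip
    refine (abs_add_le _ _).trans ?_
    rw [abs_mul, abs_mul]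
    have a1 := abs_nonneg (v k).1
    have a2 := abs_nonneg (v k).2
    have a3 := abs_nonneg x.1
    have a4 := abs_nonneg x.2
    nlinarith [mul_nonneg a1 a3, mul_nonneg a1 a4, mul_nonneg a2 a3, mul_nonneg a2 a4]
  have h2 : 1 ≤ b * (1 + r) := by nlinarith
  unfold tau
  calc |ip (v k) x| ^ p ≤ (b * (1 + r)) ^ p :=
        Real.rpow_le_rpow (abs_nonneg _) h1 (by linarith)
    _ ≤ (b * (1 + r)) ^ (2 : ℝ) := Real.rpow_le_rpow_of_exponent_le h2 hp2
    _ = b ^ 2 * (1 + r) ^ 2 := by
        rw [Real.rpow_two]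
        ring

end

theorem IF : S_IF := by
  intro κ _ p hp hp2 v hv
  have h1 : Integrable (fun x => Real.exp (-(Ph p v one x))) := by
    have h := dom hp hv (f := fun _ => 1) measurable_const (C := 1) (fun x => by
      have : (1 : ℝ) ≤ 1 + (|x.1| + |x.2|) := by
        have : 0 ≤ |x.1| + |x.2| := by positivity
        linarith
      rw [abs_one, one_mul]
      exact one_le_pow₀ this)
    simpa using h
  refine ⟨h1, ?_, fun k => ?_⟩
  · exact integral_exp_pos h1
  · obtain ⟨B, hB, hbd⟩ := tau_bd hp hp2 v k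
    have hm : Measurable (tau p v k) := (tau_cont (by linarith) v k).measurable
    have hone : ∀ x : P2, (1 : ℝ) ≤ 1 + (|x.1| + |x.2|) := fun x => by
      have : 0 ≤ |x.1| + |x.2| := by positivity
      linarith
    constructor
    · refine dom hp hv hm (C := B) fun x => ?_
      obtain ⟨h2, h3⟩ := hbd x
      rw [abs_of_nonneg h2]
      refine h3.trans (mul_le_mul_of_nonneg_left ?_ hB)
      exact pow_le_pow_right₀ (hone x) (by norm_num)
    · refine dom hp hv (f := fun x => tau p v k x * Real.log (tau p v k x))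
        (hm.mul hm.log) (C := 1 + B ^ 2) fun x => ?_
      obtain ⟨h2, h3⟩ := hbd x
      refine (tlog h2).trans ?_
      have h4 : tau p v k x ^ 2 ≤ (B * (1 + (|x.1| + |x.2|)) ^ 2) ^ 2 :=
        pow_le_pow_left₀ h2 h3 2
      have h5 : (B * (1 + (|x.1| + |x.2|)) ^ 2) ^ 2 = B ^ 2 * (1 + (|x.1| + |x.2|)) ^ 4 := by ring
      have h6 : (1 : ℝ) ≤ (1 + (|x.1| + |x.2|)) ^ 4 := one_le_pow₀ (hone x)
      rw [h5] at h4
      linarith

end Pool.Agent.H276.PLIF
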